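import Pool.Agent.LC5.Stmts

/-!
# LC5, rows KEY, SM6, BCL
-/

set_option autoImplicit false

open Topology

namespace Pool.Agent.LC5.H33

open Pool.Agent.LCK

theorem key : KEYStmt := by
  intro v₁ v₃ v₄ σ α β γ hσ0 hσ1 hα hβ hγ hsum
  have hD : 0 < σ + β * (1 - σ) := by
    have : 0 ≤ β * (1 - σ) := mul_nonneg hβ (by linarith)
    linarith
  obtain ⟨lam, hlam⟩ : ∃ lam : ℝ, lam = σ / (σ + β * (1 - σ)) := ⟨_, rfl⟩
  have hlamD : lam * (σ + β * (1 - σ)) = σ := by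
    rw [hlam]
    exact div_mul_cancel₀ _ hD.ne'
  have hlam0 : 0 ≤ lam := by
    rw [hlam]
    positivity
  have hlam1 : lam ≤ 1 := by
    rw [hlam, div_le_one hD]
    have : 0 ≤ β * (1 - σ) := mul_nonneg hβ (by linarith)
    linarith
  have hγ1 : γ ≤ 1 := by linarith
  have hα' : α = 1 - β - γ := by linarith
  refine ⟨(1 - lam) • v₁ + lam • (α • (v₁ + σ • (v₃ - v₁)) + β • v₃ + γ • v₄),
    ⟨1 - lam, lam, by linarith, hlam0, by ring, rfl⟩,
    ⟨1 - lam * γ, lam * γ, ?_, mul_nonneg hlam0 hγ, by ring, ?_⟩⟩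
  · have : lam * γ ≤ 1 * 1 := mul_le_mul hlam1 hγ1 hγ (by norm_num)
    linarith
  · ext i
    simp only [PiLp.add_apply, PiLp.smul_apply, PiLp.sub_apply, smul_eq_mul]
    rw [hα']
    linear_combination (v₁ i - v₃ i) * hlamD

theorem sm6 : SM6Stmt := by
  refine ⟨fun v => ⟨fun h => ?_, fun h => ?_⟩, fun l v => ⟨fun h => ?_, fun h => ?_⟩⟩
  · have h01 := h 0 1 (by decide)
    have h12 := h 1 2 (by decide)
    have h23 := h 2 3 (by decide)
    have h34 := h 3 4 (by decide)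
    have h02 := h 0 2 (by decide)
    have h03 := h 0 3 (by decide)
    have h04 := h 0 4 (by decide)
    have h13 := h 1 3 (by decide)
    have h14 := h 1 4 (by decide)
    have h24 := h 2 4 (by decide)
    rw [if_pos (by decide)] at h01 h12 h23 h34
    rw [if_neg (by decide)] at h02 h03 h04 h13 h14 h24
    exact ⟨h01, h12, h23, h34, h02, h03, h04, h13, h14, h24⟩
  · obtain ⟨h01, h12, h23, h34, h02, h03, h04, h13, h14, h24⟩ := h
    intro i j hij
    fin_cases i <;> fin_cases j <;>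
      first
      | exact absurd hij (by decide)
      | (rw [if_pos (by decide)]; first | exact h01 | exact h12 | exact h23 | exact h34)
      | (rw [if_neg (by decide)]
         first | exact h02 | exact h03 | exact h04 | exact h13 | exact h14 | exact h24)
  · exact ⟨⟨h.1 0, h.1 1, h.1 2, h.1 3, h.1 4⟩, h.2⟩
  · obtain ⟨⟨h0, h1, h2, h3, h4⟩, hs⟩ := h
    refine ⟨fun k => ?_, hs⟩
    fin_cases k
    · exact h0
    · exact h1
    · exact h2
    · exact h3
    · exact h4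

theorem bcl : BCLStmt := by
  let K : Set (Fin 8 → ℝ) := Set.pi Set.univ fun _ => Set.Icc (0 : ℝ) 1
  have hK : IsCompact K := isCompact_univ_pi fun _ => isCompact_Icc
  haveI : CompactSpace K := isCompact_iff_compactSpace.1 hK
  let C : Set (K × (Fin 6 → E3)) := {q | CD q.2 ((q.1 : Fin 8 → ℝ) 0) ((q.1 : Fin 8 → ℝ) 1)
    ((q.1 : Fin 8 → ℝ) 2) ((q.1 : Fin 8 → ℝ) 3) ((q.1 : Fin 8 → ℝ) 4) ((q.1 : Fin 8 → ℝ) 5)
    ((q.1 : Fin 8 → ℝ) 6) ((q.1 : Fin 8 → ℝ) 7)}
  have hc : ∀ i : Fin 8, Continuous fun q : K × (Fin 6 → E3) => (q.1 : Fin 8 → ℝ) i := fun i =>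
    (continuous_apply i).comp (continuous_subtype_val.comp continuous_fst)
  have hv : ∀ i : Fin 6, Continuous fun q : K × (Fin 6 → E3) => q.2 i := fun i =>
    (continuous_apply i).comp continuous_snd
  have hC : IsClosed C := by
    have e : ∀ i : Fin 8, IsClosed {q : K × (Fin 6 → E3) | (0 : ℝ) ≤ (q.1 : Fin 8 → ℝ) i} :=
      fun i => isClosed_le continuous_const (hc i)
    have e1 : ∀ i : Fin 8, IsClosed {q : K × (Fin 6 → E3) | (q.1 : Fin 8 → ℝ) i ≤ (1 : ℝ)} :=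
      fun i => isClosed_le (hc i) continuous_const
    have hy : Continuous fun q : K × (Fin 6 → E3) => (q.1 : Fin 8 → ℝ) 0 • q.2 1 +
        (q.1 : Fin 8 → ℝ) 1 • q.2 2 + (q.1 : Fin 8 → ℝ) 2 • q.2 3 :=
      (((hc 0).smul (hv 1)).add ((hc 1).smul (hv 2))).add ((hc 2).smul (hv 3))
    refine ((e 0).inter ((e 1).inter ((e 2).inter (isClosed_eq
      (((hc 0).add (hc 1)).add (hc 2)) continuous_const)))).inter
      (((e 3).inter ((e 4).inter ((e 5).inter (isClosed_eq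
      (((hc 3).add (hc 4)).add (hc 5)) continuous_const)))).inter
      (((e 6).inter (e1 6)).inter (((e 7).inter (e1 7)).inter
      ((isClosed_eq hy (((continuous_const.sub (hc 6)).smul (hv 4)).add ((hc 6).smul (hv 5)))).inter
      (isClosed_eq ((((hc 3).smul hy).add ((hc 4).smul (hv 3))).add ((hc 5).smul (hv 4)))
        (((continuous_const.sub (hc 7)).smul (hv 1)).add ((hc 7).smul (hv 0))))))))
  have himg : {v : Fin 6 → E3 | BetaC v} = Prod.snd '' C := by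
    ext v
    constructor
    · rintro ⟨y₁, y₂, y₃, α, β, γ, τ, r, h⟩
      obtain ⟨⟨a1, a2, a3, a4⟩, ⟨b1, b2, b3, b4⟩, ⟨c1, c2⟩, ⟨d1, d2⟩, e1, e2⟩ := h
      have hmem : (![y₁, y₂, y₃, α, β, γ, τ, r] : Fin 8 → ℝ) ∈ K := by
        intro i _
        fin_cases i
        · exact ⟨a1, by show y₁ ≤ 1; linarith⟩
        · exact ⟨a2, by show y₂ ≤ 1; linarith⟩
        · exact ⟨a3, by show y₃ ≤ 1; linarith⟩
        · exact ⟨b1, by show α ≤ 1; linarith⟩
        · exact ⟨b2, by show β ≤ 1; linarith⟩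
        · exact ⟨b3, by show γ ≤ 1; linarith⟩
        · exact ⟨c1, c2⟩
        · exact ⟨d1, d2⟩
      exact ⟨(⟨_, hmem⟩, v), ⟨⟨a1, a2, a3, a4⟩, ⟨b1, b2, b3, b4⟩, ⟨c1, c2⟩, ⟨d1, d2⟩, e1, e2⟩, rfl⟩
    · rintro ⟨q, hq, rfl⟩
      exact ⟨_, _, _, _, _, _, _, _, hq⟩
  show IsClosed {v : Fin 6 → E3 | BetaC v}
  rw [himg]
  exact isClosedMap_snd_of_compactSpace C hC

end Pool.Agent.LC5.H33
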