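import Pool.Agent.LC5.Stmts
import Pool.Agent.Helper32_LCK.LPC

/-!
# LC5, row LOC (the first half of the proof of LPC by helper32)
-/

set_option autoImplicit false

open Topology Filter

namespace Pool.Agent.LC5.H33

open Pool.Agent.LCK Pool.Agent.LCK.H32

theorem loc (opn : OPNStmt) : LOCStmt := by
  intro n l hl c hc
  -- interpolation
  let z : (Fin (n + 1) → E3) × ℝ → Fin n → E3 := fun p k =>
    (1 - p.2) • (c k.succ - c k.castSucc) + p.2 • (p.1 k.succ - p.1 k.castSucc)
  let x : (Fin (n + 1) → E3) × ℝ → E3 := fun p => (1 - p.2) • c 0 + p.2 • p.1 0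
  let Φ : (Fin (n + 1) → E3) × ℝ → Fin (n + 1) → E3 := fun p =>
    ch (x p) (fun k => (l k / ‖z p k‖) • z p k)
  have hnorm : ∀ v : Fin (n + 1) → E3, v ∈ Conf l → ∀ k : Fin n,
      ‖v k.succ - v k.castSucc‖ = l k := by
    intro v hv k
    rw [← dist_eq_norm, dist_comm]; exact hv.1 k
  have hz : Continuous z := by
    refine continuous_pi fun k => ?_
    have h1 : Continuous fun p : (Fin (n + 1) → E3) × ℝ => p.1 k.succ :=
      (continuous_apply _).comp continuous_fst
    have h2 : Continuous fun p : (Fin (n + 1) → E3) × ℝ => p.1 k.castSucc :=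
      (continuous_apply _).comp continuous_fst
    exact ((continuous_const.sub continuous_snd).smul continuous_const).add
      (continuous_snd.smul (h1.sub h2))
  have hx : Continuous x := by
    have h1 : Continuous fun p : (Fin (n + 1) → E3) × ℝ => p.1 0 :=
      (continuous_apply _).comp continuous_fst
    exact ((continuous_const.sub continuous_snd).smul continuous_const).add
      (continuous_snd.smul h1)
  have hΦ : ∀ p, (∀ k, z p k ≠ 0) → ContinuousAt Φ p := by
    intro p hp
    refine ch_continuousAt hx.continuousAt fun k => ?_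
    have h1 : ContinuousAt (fun p => z p k) p := ((continuous_apply k).comp hz).continuousAt
    exact (ContinuousAt.div continuousAt_const h1.norm (norm_ne_zero_iff.2 (hp k))).smul h1
  have hzc : ∀ s : ℝ, ∀ k, z (c, s) k = c k.succ - c k.castSucc := by
    intro s k
    simp only [z]
    module
  have hΦ1 : ∀ v ∈ Conf l, Φ (v, 1) = v := by
    intro v hv
    refine chain_ext ?_ fun k => ?_
    · simp only [Φ]
      rw [ch_zero]
      simp [x]
    · simp only [Φ]
      rw [ch_diff]
      have h1 : z (v, 1) k = v k.succ - v k.castSucc := by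
        simp [z]
      rw [h1, hnorm v hv k, div_self (hl k).ne', one_smul]
  have hΦ0 : ∀ v, Φ (v, 0) = c := by
    intro v
    refine chain_ext ?_ fun k => ?_
    · simp only [Φ]
      rw [ch_zero]
      simp [x]
    · simp only [Φ]
      rw [ch_diff]
      have h1 : z (v, 0) k = c k.succ - c k.castSucc := by
        simp [z]
      rw [h1, hnorm c hc k, div_self (hl k).ne', one_smul]
  have hΦc : ∀ s : ℝ, Φ (c, s) = c := by
    intro s
    refine chain_ext ?_ fun k => ?_
    · simp only [Φ]
      rw [ch_zero]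
      simp only [x]
      module
    · simp only [Φ]
      rw [ch_diff, hzc, hnorm c hc k, div_self (hl k).ne', one_smul]
  have hzc0 : ∀ s : ℝ, ∀ k, z (c, s) k ≠ 0 := by
    intro s k h
    rw [hzc] at h
    have := hnorm c hc k
    rw [h, norm_zero] at this
    exact (hl k).ne this
  have hopn := opn n c hc.2 (fun k h => by
    have := hc.1 k
    rw [h, dist_self] at this
    exact (hl k).ne this)
  have key : ∀ᶠ v in 𝓝 c, ∀ s ∈ Set.Icc (0 : ℝ) 1, (∀ k, z (v, s) k ≠ 0) ∧ Simple (Φ (v, s)) := by
    refine isCompact_Icc.eventually_forall_of_forall_eventually ?_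
    intro s _
    have h1 : ∀ᶠ p in 𝓝 (c, s), ∀ k, z p k ≠ 0 := by
      rw [eventually_all]
      intro k
      exact ((continuous_apply k).comp hz).continuousAt.eventually_ne (hzc0 s k)
    have h2 : ∀ᶠ p in 𝓝 (c, s), Simple (Φ p) := by
      have h3 := hΦ (c, s) (hzc0 s)
      unfold ContinuousAt at h3
      rw [hΦc] at h3
      exact h3.eventually hopn
    exact h1.and h2
  filter_upwards [key] with v hv hvc
  refine JoinedIn.ofLine (f := fun s => Φ (v, s)) ?_ (hΦ0 v) (hΦ1 v hvc) ?_
  · intro s hs
    have h1 := hΦ (v, s) (hv s hs).1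
    have h2 : ContinuousAt (fun s : ℝ => (v, s)) s := by fun_prop
    exact (ContinuousAt.comp (g := Φ) (f := fun s : ℝ => (v, s)) h1 h2).continuousWithinAt
  · rintro _ ⟨s, hs, rfl⟩
    refine ⟨fun k => ?_, (hv s hs).2⟩
    rw [dist_comm, dist_eq_norm]
    simp only [Φ]
    rw [ch_diff, norm_smul, norm_div, norm_norm, Real.norm_of_nonneg (hl k).le]
    exact div_mul_cancel₀ _ (norm_ne_zero_iff.2 ((hv s hs).1 k))

end Pool.Agent.LC5.H33
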